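import Pool.Agent.H16.Flat.FrameAlg
import Pool.Agent.H65.Flat.ODE

/-! # Brackets of the frame `X, H, V` and `X`-derivatives (helper36) -/

namespace H65.Flat

open MeasureTheory Set Filter

/-- derivative of a function of `(x,s)` along a curve -/
theorem hasDerivAt_bp {F : ℝ × ℝ → ℝ} (hF : Differentiable ℝ F) {x s : ℝ → ℝ} {x' s' t : ℝ}
    (hx : HasDerivAt x x' t) (hs : HasDerivAt s s' t) :
    HasDerivAt (fun t => F (x t, s t)) (Ux F (x t, s t) * x' + Us F (x t, s t) * s') t := by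
  have h1 := (hF (x t, s t)).hasFDerivAt.comp_hasDerivAt t (hx.prodMk hs)
  refine h1.congr_deriv ?_
  have : ((x', s') : ℝ × ℝ) = x' • ((1 : ℝ), (0 : ℝ)) + s' • ((0 : ℝ), (1 : ℝ)) := by
    ext <;> simp
  rw [this, map_add, map_smul, map_smul]
  simp only [Ux, Us, smul_eq_mul]
  ring

theorem mixed_symm {U : ℝ × ℝ → ℝ} (hU : ContDiff ℝ (⊤ : ℕ∞) U) (p : ℝ × ℝ) :
    Ux (Us U) p = Us (Ux U) p := by
  have hsym : IsSymmSndFDerivAt ℝ U p :=
    (hU.contDiffAt).isSymmSndFDerivAt (by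
      simp only [minSmoothness_of_isRCLikeNormedField]
      exact ODE.two_le_top)
  have hd : DifferentiableAt ℝ (fderiv ℝ U) p := by
    have h : ContDiff ℝ (⊤ : ℕ∞) (fderiv ℝ U) := hU.fderiv_right (by simp)
    exact h.differentiable (by simp) p
  have e1 : ∀ a b : ℝ × ℝ, fderiv ℝ (fun q => fderiv ℝ U q a) p b
      = fderiv ℝ (fderiv ℝ U) p b a := by
    intro a b
    have := (hd.hasFDerivAt.clm_apply (hasFDerivAt_const a p)).fderiv
    rw [this]
    simp
  unfold Ux Us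
  rw [e1, e1]
  exact hsym _ _

/-- derivative of `X` along a curve -/
theorem hasDerivAt_fieldX {U : ℝ × ℝ → ℝ} (hU : ContDiff ℝ (⊤ : ℕ∞) U) {x s ψ : ℝ → ℝ}
    {x' s' ψ' t : ℝ}
    (hx : HasDerivAt x x' t) (hs : HasDerivAt s s' t) (hψ : HasDerivAt ψ ψ' t) :
    HasDerivAt (fun t => fieldX U (x t, s t, ψ t))
      (Real.exp (s t - U (x t, s t)) * ((s' - (Ux U (x t, s t) * x' + Us U (x t, s t) * s'))
          * Real.cos (ψ t) - Real.sin (ψ t) * ψ'),
       Real.exp (-U (x t, s t)) * (-(Ux U (x t, s t) * x' + Us U (x t, s t) * s')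
          * Real.sin (ψ t) + Real.cos (ψ t) * ψ'),
       Real.exp (-U (x t, s t)) * (-(Ux U (x t, s t) * x' + Us U (x t, s t) * s')
          * ((Us U (x t, s t) - 1) * Real.cos (ψ t)
            - Real.exp (s t) * Ux U (x t, s t) * Real.sin (ψ t))
          + (Ux (Us U) (x t, s t) * x' + Us (Us U) (x t, s t) * s') * Real.cos (ψ t)
          - (Us U (x t, s t) - 1) * Real.sin (ψ t) * ψ'
          - Real.exp (s t) * s' * Ux U (x t, s t) * Real.sin (ψ t)
          - Real.exp (s t) * (Ux (Ux U) (x t, s t) * x' + Us (Ux U) (x t, s t) * s')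
            * Real.sin (ψ t)
          - Real.exp (s t) * Ux U (x t, s t) * Real.cos (ψ t) * ψ')) t := by
  have dU := hasDerivAt_bp (hU.differentiable (by simp)) hx hs
  have dUx := hasDerivAt_bp ((Ux_smooth hU).differentiable (by simp)) hx hs
  have dUs := hasDerivAt_bp ((Us_smooth hU).differentiable (by simp)) hx hs
  have d1 := (hs.sub dU).exp.mul hψ.cos
  have d2 := dU.neg.exp.mul hψ.sin
  have d3 := dU.neg.exp.mul (((dUs.sub_const 1).mul hψ.cos).sub ((hs.exp.mul dUx).mul hψ.sin))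
  refine (d1.prodMk (d2.prodMk d3)).congr_deriv ?_
  simp only [Prod.mk.injEq]
  refine ⟨?_, ?_, ?_⟩
  · simp; ring
  · simp; ring
  · simp; ring

/-- derivative of `H` along a curve -/
theorem hasDerivAt_fieldH {U : ℝ × ℝ → ℝ} (hU : ContDiff ℝ (⊤ : ℕ∞) U) {x s ψ : ℝ → ℝ}
    {x' s' ψ' t : ℝ}
    (hx : HasDerivAt x x' t) (hs : HasDerivAt s s' t) (hψ : HasDerivAt ψ ψ' t) :
    HasDerivAt (fun t => fieldH U (x t, s t, ψ t))
      (-Real.exp (s t - U (x t, s t)) * ((s' - (Ux U (x t, s t) * x' + Us U (x t, s t) * s'))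
          * Real.sin (ψ t) + Real.cos (ψ t) * ψ'),
       Real.exp (-U (x t, s t)) * (-(Ux U (x t, s t) * x' + Us U (x t, s t) * s')
          * Real.cos (ψ t) - Real.sin (ψ t) * ψ'),
       Real.exp (-U (x t, s t)) * (-(Ux U (x t, s t) * x' + Us U (x t, s t) * s')
          * (-(Us U (x t, s t) - 1) * Real.sin (ψ t)
            - Real.exp (s t) * Ux U (x t, s t) * Real.cos (ψ t))
          - (Ux (Us U) (x t, s t) * x' + Us (Us U) (x t, s t) * s') * Real.sin (ψ t)
          - (Us U (x t, s t) - 1) * Real.cos (ψ t) * ψ'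
          - Real.exp (s t) * s' * Ux U (x t, s t) * Real.cos (ψ t)
          - Real.exp (s t) * (Ux (Ux U) (x t, s t) * x' + Us (Ux U) (x t, s t) * s')
            * Real.cos (ψ t)
          + Real.exp (s t) * Ux U (x t, s t) * Real.sin (ψ t) * ψ')) t := by
  have dU := hasDerivAt_bp (hU.differentiable (by simp)) hx hs
  have dUx := hasDerivAt_bp ((Ux_smooth hU).differentiable (by simp)) hx hs
  have dUs := hasDerivAt_bp ((Us_smooth hU).differentiable (by simp)) hx hs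
  have d1 := (hs.sub dU).exp.neg.mul hψ.sin
  have d2 := dU.neg.exp.mul hψ.cos
  have d3 := dU.neg.exp.mul
    (((dUs.sub_const 1).neg.mul hψ.sin).sub ((hs.exp.mul dUx).mul hψ.cos))
  refine (d1.prodMk (d2.prodMk d3)).congr_deriv ?_
  simp only [Prod.mk.injEq]
  refine ⟨?_, ?_, ?_⟩
  · simp; ring
  · simp; ring
  · simp; ring

/-- derivative in the direction `(a,b,c)` -/
theorem fderiv_dir {f : T → T} {v : T} (hf : DifferentiableAt ℝ f v) (w : T) {d : T}
    (h : HasDerivAt (fun t : ℝ => f (v.1 + t * w.1, v.2.1 + t * w.2.1, v.2.2 + t * w.2.2)) d 0) :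
    fderiv ℝ f v w = d := by
  obtain ⟨x, s, ψ⟩ := v
  obtain ⟨a, b, c⟩ := w
  have hl : ∀ x a : ℝ, HasDerivAt (fun t : ℝ => x + t * a) a 0 := fun x a => by
    simpa using ((hasDerivAt_id (0 : ℝ)).mul_const a).const_add x
  have h1 := hl x a
  have h2 := (hl s b).prodMk (hl ψ c)
  have h3 := h1.prodMk h2
  have hf' : HasFDerivAt f (fderiv ℝ f (x, s, ψ)) (x + 0 * a, s + 0 * b, ψ + 0 * c) := by
    simpa using hf.hasFDerivAt
  exact (hf'.comp_hasDerivAt (0 : ℝ) h3).unique h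

/-- `DX · V = H` -/
theorem fderiv_fieldX_V {U : ℝ × ℝ → ℝ} (hU : ContDiff ℝ (⊤ : ℕ∞) U) (v : T) :
    fderiv ℝ (fieldX U) v fieldV = fieldH U v := by
  obtain ⟨x, s, ψ⟩ := v
  have hl : ∀ x a : ℝ, HasDerivAt (fun t : ℝ => x + t * a) a 0 := fun x a => by
    simpa using ((hasDerivAt_id (0 : ℝ)).mul_const a).const_add x
  rw [fderiv_dir ((fieldX_smooth hU).differentiable (by simp) _) fieldV
    (hasDerivAt_fieldX hU (hl _ _) (hl _ _) (hl _ _))]
  simp only [fieldH, fieldV, bp, Prod.mk.injEq, mul_zero, zero_mul, add_zero, sub_zero, neg_zero,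
    mul_one, zero_add]
  refine ⟨?_, ?_, ?_⟩
  · ring
  · trivial
  · ring

/-- the bracket: `DX · H - DH · X = -K V` -/
theorem bracket {U : ℝ × ℝ → ℝ} (hU : ContDiff ℝ (⊤ : ℕ∞) U) (v : T) :
    fderiv ℝ (fieldX U) v (fieldH U v)
      = fderiv ℝ (fieldH U) v (fieldX U v) - curv U (bp v) • fieldV := by
  obtain ⟨x, s, ψ⟩ := v
  have hl : ∀ x a : ℝ, HasDerivAt (fun t : ℝ => x + t * a) a 0 := fun x a => by
    simpa using ((hasDerivAt_id (0 : ℝ)).mul_const a).const_add x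
  rw [fderiv_dir ((fieldX_smooth hU).differentiable (by simp) _) _
      (hasDerivAt_fieldX hU (hl _ _) (hl _ _) (hl _ _)),
    fderiv_dir ((fieldH_smooth hU).differentiable (by simp) _) _
      (hasDerivAt_fieldH hU (hl _ _) (hl _ _) (hl _ _))]
  have hsym := mixed_symm hU (x, s)
  have h2 : Real.cos ψ ^ 2 = 1 - Real.sin ψ ^ 2 := by rw [← Real.sin_sq_add_cos_sq ψ]; ring
  have e1 : Real.exp (s - U (x, s)) = Real.exp s * Real.exp (-U (x, s)) := by
    rw [← Real.exp_add]; ring_nf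
  have e2 : Real.exp (-2 * U (x, s)) = Real.exp (-U (x, s)) * Real.exp (-U (x, s)) := by
    rw [← Real.exp_add]; ring_nf
  have e3 : Real.exp (2 * s) = Real.exp s * Real.exp s := by
    rw [← Real.exp_add]; ring_nf
  simp only [fieldH, fieldX, fieldV, bp, curv, Prod.mk.injEq, mul_zero, zero_mul, add_zero,
    sub_zero, mul_one, hsym, e1, e2, e3, Prod.mk_sub_mk, Prod.smul_mk,
    smul_eq_mul]
  refine ⟨?_, ?_, ?_⟩
  · ring_nf
  · ring_nf
  · ring_nf
    simp only [h2]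
    ring

end H65.Flat
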