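import Pool.Agent.H36.Flat.Bracket

/-! # Jacobi fields of a smooth complete geodesic flow (helper36) -/

namespace H65.Flat

open MeasureTheory Set Filter

/-- coefficient of `X` -/
noncomputable def cA (U : ℝ × ℝ → ℝ) (v w : T) : ℝ :=
  Real.exp (U (bp v) - v.2.1) * Real.cos v.2.2 * w.1 + Real.exp (U (bp v)) * Real.sin v.2.2 * w.2.1

/-- coefficient of `H` -/
noncomputable def cB (U : ℝ × ℝ → ℝ) (v w : T) : ℝ :=
  -Real.exp (U (bp v) - v.2.1) * Real.sin v.2.2 * w.1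
    + Real.exp (U (bp v)) * Real.cos v.2.2 * w.2.1

/-- coefficient of `V` -/
noncomputable def cC (U : ℝ × ℝ → ℝ) (v w : T) : ℝ :=
  w.2.2 - cA U v w * (fieldX U v).2.2 - cB U v w * (fieldH U v).2.2

theorem exp_mul_aux (a b : ℝ) : Real.exp (a - b) * Real.exp (b - a) = 1 := by
  rw [← Real.exp_add]; simp

theorem exp_mul_aux' (a : ℝ) : Real.exp a * Real.exp (-a) = 1 := by
  rw [← Real.exp_add]; simp

theorem coef_lin (U : ℝ × ℝ → ℝ) (v : T) (a b c : ℝ) :
    cA U v (a • fieldX U v + b • fieldH U v + c • fieldV) = a ∧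
    cB U v (a • fieldX U v + b • fieldH U v + c • fieldV) = b ∧
    cC U v (a • fieldX U v + b • fieldH U v + c • fieldV) = c := by
  obtain ⟨x, s, ψ⟩ := v
  have h2 : Real.cos ψ ^ 2 = 1 - Real.sin ψ ^ 2 := by rw [← Real.sin_sq_add_cos_sq ψ]; ring
  have e1 := exp_mul_aux (U (x, s)) s
  have e2 := exp_mul_aux' (U (x, s))
  have hA : cA U (x, s, ψ) (a • fieldX U (x, s, ψ) + b • fieldH U (x, s, ψ) + c • fieldV) = a := by
    simp only [cA, fieldX, fieldH, fieldV, bp, Prod.smul_mk, Prod.mk_add_mk, smul_eq_mul, mul_zero,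
      add_zero]
    linear_combination (a * Real.cos ψ ^ 2 - b * Real.cos ψ * Real.sin ψ) * e1
      + (a * Real.sin ψ ^ 2 + b * Real.cos ψ * Real.sin ψ) * e2 + a * h2
  have hB : cB U (x, s, ψ) (a • fieldX U (x, s, ψ) + b • fieldH U (x, s, ψ) + c • fieldV) = b := by
    simp only [cB, fieldX, fieldH, fieldV, bp, Prod.smul_mk, Prod.mk_add_mk, smul_eq_mul, mul_zero,
      add_zero]
    linear_combination (-a * Real.cos ψ * Real.sin ψ + b * Real.sin ψ ^ 2) * e1
      + (a * Real.cos ψ * Real.sin ψ + b * Real.cos ψ ^ 2) * e2 + b * h2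
  refine ⟨hA, hB, ?_⟩
  unfold cC
  rw [hA, hB]
  simp only [fieldX, fieldH, fieldV, bp, Prod.smul_mk, Prod.mk_add_mk, smul_eq_mul]
  ring

theorem coef_repr (U : ℝ × ℝ → ℝ) (v w : T) :
    w = cA U v w • fieldX U v + cB U v w • fieldH U v + cC U v w • fieldV := by
  obtain ⟨x, s, ψ⟩ := v
  obtain ⟨p, q, r⟩ := w
  have h2 : Real.cos ψ ^ 2 = 1 - Real.sin ψ ^ 2 := by rw [← Real.sin_sq_add_cos_sq ψ]; ring
  have e1 := exp_mul_aux (U (x, s)) s
  have e2 := exp_mul_aux' (U (x, s))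
  ext
  · simp only [cA, cB, cC, fieldX, fieldH, fieldV, bp, Prod.smul_mk, Prod.mk_add_mk, smul_eq_mul,
      mul_zero, add_zero]
    linear_combination (-p * Real.cos ψ ^ 2 - p * Real.sin ψ ^ 2) * e1 - p * h2
  · simp only [cA, cB, cC, fieldX, fieldH, fieldV, bp, Prod.smul_mk, Prod.mk_add_mk, smul_eq_mul,
      mul_zero, add_zero]
    linear_combination (-q * Real.cos ψ ^ 2 - q * Real.sin ψ ^ 2) * e2 - q * h2
  · simp only [cC, fieldX, fieldH, fieldV, bp, Prod.smul_mk, Prod.mk_add_mk, smul_eq_mul,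
      mul_one]
    ring

theorem cA_smooth {U : ℝ × ℝ → ℝ} (hU : ContDiff ℝ (⊤ : ℕ∞) U) :
    ContDiff ℝ (⊤ : ℕ∞) fun q : T × T => cA U q.1 q.2 := by
  have h : ContDiff ℝ (⊤ : ℕ∞) fun q : T × T => U (bp q.1) :=
    hU.comp (bp_smooth.comp contDiff_fst)
  unfold cA
  fun_prop

theorem cB_smooth {U : ℝ × ℝ → ℝ} (hU : ContDiff ℝ (⊤ : ℕ∞) U) :
    ContDiff ℝ (⊤ : ℕ∞) fun q : T × T => cB U q.1 q.2 := by
  have h : ContDiff ℝ (⊤ : ℕ∞) fun q : T × T => U (bp q.1) :=
    hU.comp (bp_smooth.comp contDiff_fst)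
  unfold cB
  fun_prop

theorem cC_smooth {U : ℝ × ℝ → ℝ} (hU : ContDiff ℝ (⊤ : ℕ∞) U) :
    ContDiff ℝ (⊤ : ℕ∞) fun q : T × T => cC U q.1 q.2 := by
  have h1 := cA_smooth hU
  have h2 := cB_smooth hU
  have h3 : ContDiff ℝ (⊤ : ℕ∞) fun q : T × T => (fieldX U q.1).2.2 :=
    contDiff_snd.comp (contDiff_snd.comp ((fieldX_smooth hU).comp contDiff_fst))
  have h4 : ContDiff ℝ (⊤ : ℕ∞) fun q : T × T => (fieldH U q.1).2.2 :=
    contDiff_snd.comp (contDiff_snd.comp ((fieldH_smooth hU).comp contDiff_fst))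
  unfold cC
  fun_prop

variable (P : Pre)

theorem Pre.flow_smooth (t : ℝ) : ContDiff ℝ (⊤ : ℕ∞) (P.Φ t) :=
  P.Φ_smooth.comp (f := fun p : T => (t, p)) (by fun_prop)

/-- the variational equation -/
theorem Pre.variational (v w : T) (t : ℝ) :
    HasDerivAt (fun t => fderiv ℝ (P.Φ t) v w)
      (fderiv ℝ (fieldX P.U) (P.Φ t v) (fderiv ℝ (P.Φ t) v w)) t := by
  set F : ℝ × T → T := fun p => P.Φ p.1 p.2 with hF
  have hFs : ContDiff ℝ (⊤ : ℕ∞) F := P.Φ_smooth
  have hFd : Differentiable ℝ F := hFs.differentiable (by simp)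
  have hF1 : ContDiff ℝ (⊤ : ℕ∞) (fderiv ℝ F) := hFs.fderiv_right (by simp)
  have hF1d : Differentiable ℝ (fderiv ℝ F) := hF1.differentiable (by simp)
  have hsym : ∀ p, IsSymmSndFDerivAt ℝ F p := fun p =>
    (hFs.contDiffAt).isSymmSndFDerivAt (by
      simp only [minSmoothness_of_isRCLikeNormedField]
      exact ODE.two_le_top)
  have ex : ∀ t x w, fderiv ℝ (P.Φ t) x w = fderiv ℝ F (t, x) (0, w) := by
    intro t x w
    have h1 : HasFDerivAt (fun x : T => (t, x)) (ContinuousLinearMap.inr ℝ ℝ T) x :=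
      hasFDerivAt_prodMk_right t x
    have h2 := ((hFd (t, x)).hasFDerivAt.comp x h1).fderiv
    have h3 : F ∘ (fun x : T => (t, x)) = P.Φ t := rfl
    rw [h3] at h2
    rw [h2]
    simp
  have et : ∀ t x, fderiv ℝ F (t, x) (1, 0) = fieldX P.U (P.Φ t x) := by
    intro t x
    have h1 : HasDerivAt (fun t : ℝ => (t, x)) (1, 0) t :=
      (hasDerivAt_id t).prodMk (hasDerivAt_const t x)
    have h2 := (hFd (t, x)).hasFDerivAt.comp_hasDerivAt t h1
    exact h2.unique (P.Φ_deriv x t)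
  have h1 : HasDerivAt (fun t => fderiv ℝ F (t, v) (0, w))
      (fderiv ℝ (fderiv ℝ F) (t, v) (1, 0) (0, w)) t := by
    have h1 : HasDerivAt (fun t : ℝ => (t, v)) (1, 0) t :=
      (hasDerivAt_id t).prodMk (hasDerivAt_const t v)
    have h2 := (hF1d (t, v)).hasFDerivAt.comp_hasDerivAt t h1
    have h3 := h2.clm_apply (hasDerivAt_const t ((0, w) : ℝ × T))
    simpa using h3
  have h2 : fderiv ℝ (fderiv ℝ F) (t, v) (0, w) (1, 0)
      = fderiv ℝ (fieldX P.U) (P.Φ t v) (fderiv ℝ (P.Φ t) v w) := by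
    have a1 : HasFDerivAt (fun x : T => (t, x)) (ContinuousLinearMap.inr ℝ ℝ T) v :=
      hasFDerivAt_prodMk_right t v
    have a2 := (hF1d (t, v)).hasFDerivAt.comp v a1
    have a3 := a2.clm_apply (hasFDerivAt_const ((1, 0) : ℝ × T) v)
    have a4 : HasFDerivAt (fun x => fieldX P.U (P.Φ t x))
        ((fderiv ℝ (fieldX P.U) (P.Φ t v)).comp (fderiv ℝ (P.Φ t) v)) v :=
      ((fieldX_smooth P.U_smooth).differentiable (by simp) _).hasFDerivAt.comp v
        ((P.flow_smooth t).differentiable (by simp) v).hasFDerivAt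
    have a5 : (fun x => (fderiv ℝ F ∘ fun x : T => (t, x)) x (1, 0))
        = fun x => fieldX P.U (P.Φ t x) := by
      funext x
      exact et t x
    rw [a5] at a3
    have a6 := a3.unique a4
    have a7 := congrArg (fun L => L w) a6
    simpa using a7
  have h3 := hsym (t, v) (1, 0) (0, w)
  rw [h3, h2] at h1
  simpa only [ex] using h1

theorem Pre.fderiv_flow_smooth {w : T → T} (hw : ContDiff ℝ (⊤ : ℕ∞) w) :
    ContDiff ℝ (⊤ : ℕ∞) fun p : T × ℝ => fderiv ℝ (P.Φ p.2) p.1 (w p.1) := by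
  have h1 : ContDiff ℝ (⊤ : ℕ∞) (Function.uncurry fun (p : T × ℝ) (x : T) => P.Φ p.2 x) :=
    P.Φ_smooth.comp (f := fun q : (T × ℝ) × T => (q.1.2, q.2)) (by fun_prop)
  have h2 : ContDiff ℝ (⊤ : ℕ∞) fun p : T × ℝ => fderiv ℝ (P.Φ p.2) p.1 :=
    h1.fderiv (g := fun p : T × ℝ => p.1) contDiff_fst (by simp)
  exact h2.clm_apply (hw.comp contDiff_fst)

/-- the three coefficients of a solution of the variational equation -/
theorem Pre.coef_deriv (v w : T) (t : ℝ) :
    HasDerivAt (fun t => cA P.U (P.Φ t v) (fderiv ℝ (P.Φ t) v w)) 0 t ∧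
    HasDerivAt (fun t => cB P.U (P.Φ t v) (fderiv ℝ (P.Φ t) v w))
      (cC P.U (P.Φ t v) (fderiv ℝ (P.Φ t) v w)) t ∧
    HasDerivAt (fun t => cC P.U (P.Φ t v) (fderiv ℝ (P.Φ t) v w))
      (-curv P.U (bp (P.Φ t v)) * cB P.U (P.Φ t v) (fderiv ℝ (P.Φ t) v w)) t := by
  have hU := P.U_smooth
  have hc : ContDiff ℝ (⊤ : ℕ∞) fun t : ℝ => (P.Φ t v, fderiv ℝ (P.Φ t) v w) := by
    refine ContDiff.prodMk (P.Φ_smooth.comp (f := fun t : ℝ => (t, v)) (by fun_prop)) ?_
    exact (P.fderiv_flow_smooth (w := fun _ => w) contDiff_const).comp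
      (f := fun t : ℝ => (v, t)) (by fun_prop)
  set A := fun t => cA P.U (P.Φ t v) (fderiv ℝ (P.Φ t) v w) with hA
  set B := fun t => cB P.U (P.Φ t v) (fderiv ℝ (P.Φ t) v w) with hB
  set C := fun t => cC P.U (P.Φ t v) (fderiv ℝ (P.Φ t) v w) with hC
  have hAd : HasDerivAt A (deriv A t) t :=
    (((cA_smooth hU).comp hc).differentiable (by simp) t).hasDerivAt
  have hBd : HasDerivAt B (deriv B t) t :=
    (((cB_smooth hU).comp hc).differentiable (by simp) t).hasDerivAt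
  have hCd : HasDerivAt C (deriv C t) t :=
    (((cC_smooth hU).comp hc).differentiable (by simp) t).hasDerivAt
  have hW : (fun t => fderiv ℝ (P.Φ t) v w)
      = fun t => A t • fieldX P.U (P.Φ t v) + B t • fieldH P.U (P.Φ t v) + C t • fieldV := by
    funext t
    exact coef_repr P.U (P.Φ t v) (fderiv ℝ (P.Φ t) v w)
  have hX : HasDerivAt (fun t => fieldX P.U (P.Φ t v))
      (fderiv ℝ (fieldX P.U) (P.Φ t v) (fieldX P.U (P.Φ t v))) t :=
    ((fieldX_smooth hU).differentiable (by simp) _).hasFDerivAt.comp_hasDerivAt t (P.Φ_deriv v t)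
  have hH : HasDerivAt (fun t => fieldH P.U (P.Φ t v))
      (fderiv ℝ (fieldH P.U) (P.Φ t v) (fieldX P.U (P.Φ t v))) t :=
    ((fieldH_smooth hU).differentiable (by simp) _).hasFDerivAt.comp_hasDerivAt t (P.Φ_deriv v t)
  have h1 := P.variational v w t
  have h2 := ((hAd.smul hX).add (hBd.smul hH)).add (hCd.smul_const fieldV)
  have h3 : fderiv ℝ (P.Φ t) v w
      = A t • fieldX P.U (P.Φ t v) + B t • fieldH P.U (P.Φ t v) + C t • fieldV :=
    congrFun hW t
  rw [h3] at h1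
  rw [hW] at h1
  have h5 := h1.unique h2
  rw [map_add, map_add, map_smul, map_smul, map_smul, bracket hU, fderiv_fieldX_V hU] at h5
  have h6 : (deriv A t) • fieldX P.U (P.Φ t v) + (deriv B t - C t) • fieldH P.U (P.Φ t v)
      + (deriv C t + curv P.U (bp (P.Φ t v)) * B t) • fieldV = (0 : T) := by
    have h7 := sub_eq_zero.2 h5.symm
    rw [← h7]
    module
  have h8 := coef_lin P.U (P.Φ t v) (deriv A t) (deriv B t - C t)
    (deriv C t + curv P.U (bp (P.Φ t v)) * B t)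
  rw [h6] at h8
  have z := coef_lin P.U (P.Φ t v) 0 0 0
  have z0 : (0 : ℝ) • fieldX P.U (P.Φ t v) + (0 : ℝ) • fieldH P.U (P.Φ t v)
      + (0 : ℝ) • fieldV = (0 : T) := by simp
  rw [z0] at z
  have a1 : deriv A t = 0 := by rw [← h8.1, z.1]
  have a2 : deriv B t = C t := by
    have := h8.2.1
    rw [z.2.1] at this
    linarith
  have a3 : deriv C t = -curv P.U (bp (P.Φ t v)) * B t := by
    have := h8.2.2
    rw [z.2.2] at this
    linarith
  refine ⟨?_, ?_, ?_⟩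
  · rw [← a1]; exact hAd
  · change HasDerivAt B (C t) t
    rw [← a2]; exact hBd
  · change HasDerivAt C (-curv P.U (bp (P.Φ t v)) * B t) t
    rw [← a3]; exact hCd

theorem fderiv_flow_zero (v w : T) : fderiv ℝ (P.Φ 0) v w = w := by
  have : P.Φ 0 = id := by
    funext v
    exact P.Φ_zero v
  rw [this, fderiv_id]
  rfl

theorem Pre.coefA_const (v w : T) (t : ℝ) :
    cA P.U (P.Φ t v) (fderiv ℝ (P.Φ t) v w) = cA P.U v w := by
  have h : ∀ t, HasDerivAt (fun t => cA P.U (P.Φ t v) (fderiv ℝ (P.Φ t) v w)) 0 t :=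
    fun t => (P.coef_deriv v w t).1
  have h1 := is_const_of_deriv_eq_zero (fun t => (h t).differentiableAt) (fun t => (h t).deriv) t 0
  simpa only [P.Φ_zero, fderiv_flow_zero] using h1

/-- the flow is a one parameter group -/
theorem Pre.flow_unique {γ : ℝ → T} (h : ∀ t, HasDerivAt γ (fieldX P.U (γ t)) t) (t : ℝ) :
    γ t = P.Φ t (γ 0) :=
  ODE.sol_unique ((fieldX_smooth P.U_smooth).of_le (by exact_mod_cast le_top))
    (γ₂ := fun t => P.Φ t (γ 0)) (t₀ := 0) (a := -|t|) (b := |t|) (by simp)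
    (fun s _ => h s) (fun s _ => P.Φ_deriv _ s) (by simp [P.Φ_zero]) t
    ⟨neg_abs_le t, le_abs_self t⟩

theorem Pre.flow_add (s t : ℝ) (v : T) : P.Φ (s + t) v = P.Φ s (P.Φ t v) := by
  have h := P.flow_unique (γ := fun s => P.Φ (s + t) v) (fun s => by
    have h1 : HasDerivAt (fun s : ℝ => s + t) 1 s := (hasDerivAt_id s).add_const t
    have h2 := (P.Φ_deriv v (s + t)).scomp s h1
    rw [one_smul] at h2
    exact h2) s
  simpa using h

theorem fieldX_rotpi (U : ℝ × ℝ → ℝ) (v : T) : fieldX U (rot Real.pi v) = -fieldX U v := by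
  rw [fieldX_rot]
  simp

theorem fieldX_rot2pi (U : ℝ × ℝ → ℝ) (v : T) :
    fieldX U (rot (2 * Real.pi) v) = fieldX U v := by
  rw [fieldX_rot]
  simp

theorem Pre.flow_rev (t : ℝ) (v : T) : P.Φ t (rot Real.pi v) = rot Real.pi (P.Φ (-t) v) := by
  have h := P.flow_unique (γ := fun t => rot Real.pi (P.Φ (-t) v)) (fun t => by
    have h1 : HasDerivAt (fun t : ℝ => -t) (-1) t := hasDerivAt_neg t
    have h2 := (P.Φ_deriv v (-t)).scomp t h1
    rw [fieldX_rotpi]
    have h3 := hasDerivAt_rot Real.pi h2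
    simpa using h3) t
  rw [h]
  simp [P.Φ_zero]

theorem Pre.flow_rot2pi (t : ℝ) (v : T) :
    P.Φ t (rot (2 * Real.pi) v) = rot (2 * Real.pi) (P.Φ t v) := by
  have h := P.flow_unique (γ := fun t => rot (2 * Real.pi) (P.Φ t v)) (fun t => by
    rw [fieldX_rot2pi]
    exact hasDerivAt_rot (2 * Real.pi) (P.Φ_deriv v t)) t
  rw [h]
  simp [P.Φ_zero]

theorem Pre.fderiv_flow_X (v : T) (t : ℝ) :
    fderiv ℝ (P.Φ t) v (fieldX P.U v) = fieldX P.U (P.Φ t v) := by
  have h1 : HasDerivAt (fun s => P.Φ s v) (fieldX P.U v) 0 := by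
    simpa [P.Φ_zero] using P.Φ_deriv v 0
  have h2 : HasFDerivAt (P.Φ t) (fderiv ℝ (P.Φ t) v) (P.Φ 0 v) := by
    rw [P.Φ_zero]
    exact ((P.flow_smooth t).differentiable (by simp) v).hasFDerivAt
  have h3 := h2.comp_hasDerivAt (0 : ℝ) h1
  have h4 : HasDerivAt (fun s => P.Φ (t + s) v) (fieldX P.U (P.Φ t v)) 0 := by
    have h5 : HasDerivAt (fun s : ℝ => t + s) 1 0 := (hasDerivAt_id (0 : ℝ)).const_add t
    have h6 : HasDerivAt (fun s => P.Φ s v) (fieldX P.U (P.Φ (t + 0) v)) (t + 0) := P.Φ_deriv v _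
    have h7 := h6.scomp (0 : ℝ) h5
    rw [one_smul, add_zero] at h7
    exact h7
  have h8 : (P.Φ t ∘ fun s => P.Φ s v) = fun s => P.Φ (t + s) v := by
    funext s
    exact (P.flow_add t s v).symm
  rw [h8] at h3
  exact h3.unique h4

/-- every smooth complete geodesic flow has Jacobi fields describing its derivative -/
theorem exists_pre2 (P : Pre) : ∃ Q : Pre2, Q.toPre = P := by
  have hU := P.U_smooth
  have cH : ∀ v, cA P.U v (fieldH P.U v) = 0 ∧ cB P.U v (fieldH P.U v) = 1 ∧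
      cC P.U v (fieldH P.U v) = 0 := fun v => by
    have := coef_lin P.U v 0 1 0
    simpa using this
  have cV : ∀ v, cA P.U v fieldV = 0 ∧ cB P.U v fieldV = 0 ∧ cC P.U v fieldV = 1 := fun v => by
    have := coef_lin P.U v 0 0 1
    simpa using this
  have hΦs : ContDiff ℝ (⊤ : ℕ∞) fun p : T × ℝ => P.Φ p.2 p.1 :=
    P.Φ_smooth.comp (f := fun p : T × ℝ => (p.2, p.1)) (by fun_prop)
  have hWs := P.fderiv_flow_smooth (fieldH_smooth hU)
  refine ⟨{
    toPre := P
    J := fun v y => cB P.U (P.Φ y v) (fderiv ℝ (P.Φ y) v (fieldH P.U v))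
    J1 := fun v y => cC P.U (P.Φ y v) (fderiv ℝ (P.Φ y) v (fieldH P.U v))
    J2 := fun v y => cB P.U (P.Φ y v) (fderiv ℝ (P.Φ y) v fieldV)
    J21 := fun v y => cC P.U (P.Φ y v) (fderiv ℝ (P.Φ y) v fieldV)
    J_smooth := (cB_smooth hU).comp (hΦs.prodMk hWs)
    J1_smooth := (cC_smooth hU).comp (hΦs.prodMk hWs)
    J_zero := fun v => by rw [P.Φ_zero, fderiv_flow_zero]; exact (cH v).2.1
    J1_zero := fun v => by rw [P.Φ_zero, fderiv_flow_zero]; exact (cH v).2.2
    J2_zero := fun v => by rw [P.Φ_zero, fderiv_flow_zero]; exact (cV v).2.1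
    J21_zero := fun v => by rw [P.Φ_zero, fderiv_flow_zero]; exact (cV v).2.2
    J_deriv := fun v y => (P.coef_deriv v _ y).2.1
    J1_deriv := fun v y => (P.coef_deriv v _ y).2.2
    J2_deriv := fun v y => (P.coef_deriv v _ y).2.1
    J21_deriv := fun v y => (P.coef_deriv v _ y).2.2
    dX := fun v y => P.fderiv_flow_X v y
    dH := fun v y => by
      have h1 := coef_repr P.U (P.Φ y v) (fderiv ℝ (P.Φ y) v (fieldH P.U v))
      rw [P.coefA_const, (cH v).1, zero_smul, zero_add] at h1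
      exact h1
    dV := fun v y => by
      have h1 := coef_repr P.U (P.Φ y v) (fderiv ℝ (P.Φ y) v fieldV)
      rw [P.coefA_const, (cV v).1, zero_smul, zero_add] at h1
      exact h1
    Φ_add := P.flow_add
    Φ_rev := P.flow_rev
    Φ_rot2pi := P.flow_rot2pi }, rfl⟩

/-- derivatives of the curvature along geodesics: `X`-derivatives are smooth functions on `T` -/
theorem iter_deriv_curv (P : Pre) (Q : ℕ) : ∃ F : T → ℝ, ContDiff ℝ (⊤ : ℕ∞) F ∧
    ∀ v y, iteratedDeriv Q (fun y => curv P.U (bp (P.Φ y v))) y = F (P.Φ y v) := by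
  induction Q with
  | zero =>
    refine ⟨fun v => curv P.U (bp v), (curv_smooth P.U_smooth).comp bp_smooth, fun v y => ?_⟩
    rw [iteratedDeriv_zero]
  | succ n ih =>
    obtain ⟨F, hF, h⟩ := ih
    have hF1 : ContDiff ℝ (⊤ : ℕ∞) (fderiv ℝ F) := hF.fderiv_right (by simp)
    refine ⟨fun v => fderiv ℝ F v (fieldX P.U v), hF1.clm_apply (fieldX_smooth P.U_smooth),
      fun v y => ?_⟩
    rw [iteratedDeriv_succ]
    have h1 : iteratedDeriv n (fun y => curv P.U (bp (P.Φ y v))) = fun y => F (P.Φ y v) :=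
      funext fun y => h v y
    rw [h1]
    exact ((hF.differentiable (by simp) _).hasFDerivAt.comp_hasDerivAt y (P.Φ_deriv v y)).deriv

end H65.Flat
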