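import Pool.Agent.H36.Flat.Jac

/-! # Existence of the geodesic flow (helper36) -/

namespace H65.Flat

open MeasureTheory Set Filter

/-- linear growth from a bounded derivative -/
theorem growth {f f' : ℝ → ℝ} {T r B : ℝ} (hB : 0 ≤ B) (hr : 0 ≤ r)
    (hd : ∀ t, |t| ≤ T → HasDerivAt f (f' t) t) (h0 : |f 0| ≤ r)
    (hb : ∀ t, |t| ≤ T → |f' t| ≤ B) (t : ℝ) (ht : |t| ≤ T) : |f t| ≤ r + B * T := by
  have := ODE.gron (f := f) (f' := f') (K := 0) (T := T) (δ := r) (ε := B) le_rfl hr hB hd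
    (by simpa using h0) (fun t ht => by simpa using hb t ht) t ht
  simpa [gronwallBound_K0] using this

theorem tame_fieldX (U : ℝ × ℝ → ℝ) (C : ℝ) (hC : ∀ p, |U p| ≤ C)
    (hx : ∀ p : ℝ × ℝ, |Real.exp p.2 * Ux U p| ≤ C) (hs : ∀ p, |Us U p| ≤ C) :
    ODE.Tame (fieldX U) := by
  have hC0 : 0 ≤ C := (abs_nonneg _).trans (hC 0)
  intro r T
  set A : ℝ := Real.exp C with hA
  have hA0 : 0 < A := Real.exp_pos _
  set B : ℝ := A * (2 * C + 1) with hB
  have hB0 : 0 ≤ B := by positivity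
  set r' : ℝ := max r 0 with hr'
  have hr0 : 0 ≤ r' := le_max_right _ _
  set T' : ℝ := max T 0 with hT'
  have hT0 : 0 ≤ T' := le_max_right _ _
  set M : ℝ := Real.exp (r' + A * T' + C) with hM
  have hM0 : 0 < M := Real.exp_pos _
  refine ⟨(r' + M * T') + (r' + A * T') + (r' + B * T'), fun a γ ha h0 hγ t ht => ?_⟩
  have hTT : T ≤ T' := le_max_left _ _
  have hTn : 0 ≤ T := (abs_nonneg t).trans ht
  have hTe : T' = T := max_eq_left hTn
  have hr1 : ‖γ 0‖ ≤ r' := h0.trans (le_max_left _ _)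
  have n1 : |(γ 0).1| ≤ r' := (norm_fst_le (γ 0)).trans hr1
  have n2 : |(γ 0).2.1| ≤ r' := ((norm_fst_le (γ 0).2).trans (norm_snd_le (γ 0))).trans hr1
  have n3 : |(γ 0).2.2| ≤ r' := ((norm_snd_le (γ 0).2).trans (norm_snd_le (γ 0))).trans hr1
  have hexpU : ∀ p, Real.exp (-U p) ≤ A := fun p => by
    apply Real.exp_le_exp.2
    have := abs_le.1 (hC p)
    linarith
  have habs : ∀ t, |a t| ≤ 1 := fun t => abs_le.2 ⟨by linarith [(ha t).1], (ha t).2⟩
  have mulb : ∀ {x y c : ℝ}, |x| ≤ 1 → |y| ≤ c → |x * y| ≤ c := fun {x y c} h1 h2 => by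
    rw [abs_mul]
    calc |x| * |y| ≤ 1 * c := mul_le_mul h1 h2 (abs_nonneg _) zero_le_one
      _ = c := one_mul _
  have g2 : ∀ t, |t| ≤ T → |(γ t).2.1| ≤ r' + A * T := by
    refine growth hA0.le hr0 (fun t ht => ((hγ t ht).snd).fst) n2 (fun t ht => ?_)
    change |a t * (Real.exp (-U (bp (γ t))) * Real.sin (γ t).2.2)| ≤ A
    refine mulb (habs t) ?_
    rw [mul_comm]
    exact mulb (Real.abs_sin_le_one _) (by rw [abs_of_pos (Real.exp_pos _)]; exact hexpU _)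
  have g3 : ∀ t, |t| ≤ T → |(γ t).2.2| ≤ r' + B * T := by
    refine growth hB0 hr0 (fun t ht => ((hγ t ht).snd).snd) n3 (fun t ht => ?_)
    change |a t * (Real.exp (-U (bp (γ t))) * ((Us U (bp (γ t)) - 1) * Real.cos (γ t).2.2
      - Real.exp (γ t).2.1 * Ux U (bp (γ t)) * Real.sin (γ t).2.2))| ≤ B
    refine mulb (habs t) ?_
    rw [abs_mul, abs_of_pos (Real.exp_pos _), hB]
    refine mul_le_mul (hexpU _) ?_ (abs_nonneg _) hA0.le
    refine (abs_sub _ _).trans ?_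
    have a1 : |(Us U (bp (γ t)) - 1) * Real.cos (γ t).2.2| ≤ C + 1 := by
      rw [mul_comm]
      refine mulb (Real.abs_cos_le_one _) ?_
      refine (abs_sub _ _).trans ?_
      have := hs (bp (γ t))
      simp only [abs_one]
      linarith
    have a2 : |Real.exp (γ t).2.1 * Ux U (bp (γ t)) * Real.sin (γ t).2.2| ≤ C := by
      rw [mul_comm]
      exact mulb (Real.abs_sin_le_one _) (hx (bp (γ t)))
    linarith
  have g1 : ∀ t, |t| ≤ T → |(γ t).1| ≤ r' + M * T := by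
    refine growth hM0.le hr0 (fun t ht => (hγ t ht).fst) n1 (fun t ht => ?_)
    change |a t * (Real.exp ((γ t).2.1 - U (bp (γ t))) * Real.cos (γ t).2.2)| ≤ M
    refine mulb (habs t) ?_
    rw [mul_comm]
    refine mulb (Real.abs_cos_le_one _) ?_
    rw [abs_of_pos (Real.exp_pos _)]
    apply Real.exp_le_exp.2
    have h1 := abs_le.1 (hC (bp (γ t)))
    have h2 := abs_le.1 (g2 t ht)
    rw [hTe]
    linarith
  have k1 := g1 t ht
  have k2 := g2 t ht
  have k3 := g3 t ht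
  rw [hTe]
  rw [Prod.norm_def, Prod.norm_def]
  have p1 : 0 ≤ r' + M * T := by positivity
  have p2 : 0 ≤ r' + A * T := by positivity
  have p3 : 0 ≤ r' + B * T := by positivity
  refine max_le ?_ (max_le ?_ ?_)
  · rw [Real.norm_eq_abs]; linarith
  · rw [Real.norm_eq_abs]; linarith
  · rw [Real.norm_eq_abs]; linarith

/-- existence of the flow: bounded `U` and bounded hyperbolic gradient -/
theorem exists_pre (U : ℝ × ℝ → ℝ) (hU : ContDiff ℝ (⊤ : ℕ∞) U)
    (C : ℝ) (hC : ∀ p, |U p| ≤ C) (hx : ∀ p : ℝ × ℝ, |Real.exp p.2 * Ux U p| ≤ C)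
    (hs : ∀ p, |Us U p| ≤ C) : ∃ P : Pre, P.U = U := by
  have ht := tame_fieldX U C hC hx hs
  have hX := fieldX_smooth hU
  obtain ⟨Φ, h0, h1⟩ := ODE.exists_flow (hX.of_le (by exact_mod_cast le_top)) ht
  exact ⟨{ U := U, U_smooth := hU, Φ := Φ, Φ_zero := h0, Φ_deriv := h1,
           Φ_smooth := ODE.contDiff_flow hX ht h0 h1 }, rfl⟩

end H65.Flat
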